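import Pool.Agent.H525R3.Main

/-!
# A nontrivial elementary embedding of `V` into a set-forcing extension `V[G]`, without choice

The definitions used in the statement are in `Pool.Agent.H525R3.Lang` (the language `LJ` with a
predicate for the embedding, the axioms `ZFJ`, transitivity, notions of forcing, generic filters,
values of names, forcing extensions), `Pool.Agent.H635R2.Statement` (`ZF`) and
`Pool.Agent.Helper672.SIK.Plain` (the language `LSet`, `Mem`, `Zermelo`, `IsOrdPair`).

The embedding is constructed as follows. Let `V` be the symmetric model generated over a ground
model by the set of infinitely many Cohen reals `a 1, a 2, ...`, without their enumeration, and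
let `a 0` be Cohen generic over `V`. Then `V[a 0]` is the symmetric model for `a 0, a 1, ...`. If
a name has support `{0, ..., n - 1}`, then the embedding maps its value for `V` to its value for
`V[a 0]` after the cyclic shift of the first `n + 1` columns.
-/

namespace Pool.Agent.Results.MP_c3e1ed_lc.EmbedIntoForcingExt

open FirstOrder FirstOrder.Language
open Pool.Agent.Helper672.Plain (LSet)
open Pool.Agent.H635Amen (ZF)
open Pool.Agent.H525Emb

universe u

/-- If there is a model of ZF, then there is a model `N` of ZF, in the language with a predicate
for `j`, in which `j` is a nontrivial elementary embedding of a transitive class model `V` of ZF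
into `N`, and `N` is a proper set-forcing extension of `V`. -/
theorem result (M : Type u) [LSet.Structure M] (hM : ZF M) :
    ∃ (N : Type u) (_ : LSet.Structure N) (V : LSet.Substructure N) (j : V ↪ₑ[LSet] N),
      ZF V ∧ IsTrans V ∧ V ≠ ⊤ ∧ IsForcingExtension V ∧
      ZFJ N (fun y z => ∃ x : V, (x : N) = y ∧ j x = z) ∧
      ∃ x : V, j x ≠ x :=
  Pool.Agent.H525C.conclusion M hM

end Pool.Agent.Results.MP_c3e1ed_lc.EmbedIntoForcingExt
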